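import Mathlib

set_option autoImplicit false

namespace Pool.Agent.Results.MP_58bd73_nt.PositiveDensity

open PowerSeries

/-- The integers `t_m(n)`: the coefficient of `x ^ n` in the product of the `(1 - x ^ (2 ^ k)) ^ m`,
`k ≥ 0`. Only the factors with `k ≤ n` are written, as `2 ^ k > n` for `k > n`. -/
noncomputable def t (m n : ℕ) : ℤ :=
  coeff n (∏ k ∈ Finset.range (n + 1), ((1 : PowerSeries ℤ) - X ^ (2 ^ k)) ^ m)

/-- The exceptional set `A_{m,j}`: the `n` with `sgn t_m(3n+j) ≠ (-1)^j`. -/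
def A (m j : ℕ) : Set ℕ := {n | Int.sign (t m (3 * n + j)) ≠ (-1) ^ j}

open Classical in
/-- The number of elements of a set below `N`. -/
noncomputable def cnt (S : Set ℕ) (N : ℕ) : ℕ := ((Finset.range N).filter (· ∈ S)).card

/-- the Thue-Morse series -/
noncomputable def T : PowerSeries ℤ := PowerSeries.mk fun i => (-1) ^ (Nat.digits 2 i).sum

theorem tm_even (n : ℕ) : (Nat.digits 2 (2 * n)).sum = (Nat.digits 2 n).sum := by
  rcases Nat.eq_zero_or_pos n with h | h
  · subst h; rfl
  · have h1 : Nat.digits 2 (2 * n) = 0 :: Nat.digits 2 n := by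
      have := Nat.digits_add_two_add_one 0 (2 * n - 1)
      rw [show 2 * n - 1 + 1 = 2 * n by omega] at this
      rw [this]
      congr 1
      · omega
      · congr 1; omega
    rw [h1]; simp

theorem tm_odd (n : ℕ) : (Nat.digits 2 (2 * n + 1)).sum = 1 + (Nat.digits 2 n).sum := by
  have h1 : Nat.digits 2 (2 * n + 1) = 1 :: Nat.digits 2 n := by
    have := Nat.digits_add_two_add_one 0 (2 * n)
    rw [this]
    congr 1
    · omega
    · congr 1; omega
  rw [h1]; simp

theorem coeff_succ_one_sub_X_mul (n : ℕ) (P : PowerSeries ℤ) :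
    coeff (n + 1) ((1 - X) * P) = coeff (n + 1) P - coeff n P := by
  rw [sub_mul, one_mul, map_sub, coeff_succ_X_mul]

theorem T_rec : T = (1 - X) * expand 2 (by norm_num) T := by
  ext n
  cases n with
  | zero =>
    rw [sub_mul, one_mul, map_sub, coeff_zero_X_mul, coeff_expand]
    simp
  | succ n =>
    rw [coeff_succ_one_sub_X_mul, coeff_expand, coeff_expand]
    have h4 : n % 2 = 0 ∨ n % 2 = 1 := by omega
    rcases h4 with h | h
    · obtain ⟨k, rfl⟩ : ∃ k, n = 2 * k := ⟨n / 2, by omega⟩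
      rw [if_neg (by omega), if_pos (by omega), Nat.mul_div_cancel_left _ (by norm_num), T,
        coeff_mk, coeff_mk, tm_odd, pow_add]
      ring
    · obtain ⟨k, hk⟩ : ∃ k, n + 1 = 2 * k := ⟨(n + 1) / 2, by omega⟩
      rw [if_pos (by omega), if_neg (by omega), hk, Nat.mul_div_cancel_left _ (by norm_num), T,
        coeff_mk, coeff_mk, tm_even, sub_zero]

theorem T_prod (K : ℕ) : T = (∏ k ∈ Finset.range K, ((1 : PowerSeries ℤ) - X ^ (2 ^ k))) *
    expand (2 ^ K) (by positivity) T := by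
  induction K with
  | zero => simp
  | succ K ih =>
    conv_lhs => rw [ih]
    rw [Finset.prod_range_succ, mul_assoc]
    congr 1
    have h1 : expand (2 ^ K) (by positivity) T =
        expand (2 ^ K) (by positivity) ((1 - X) * expand 2 (by norm_num) T) := by
      rw [← T_rec]
    rw [h1, map_mul, map_sub, map_one, expand_X, ← expand_mul]
    congr 2

/-- two power series agree up to degree `n` -/
theorem coeff_mul_expand (n q : ℕ) (hq : n < q) (hq0 : q ≠ 0) (P Q : PowerSeries ℤ)
    (hQ : coeff 0 Q = 1) : coeff n (P * expand q hq0 Q) = coeff n P := by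
  rw [coeff_mul]
  rw [Finset.sum_eq_single (n, 0)]
  · rw [coeff_expand, if_pos (dvd_zero _), Nat.zero_div, hQ, mul_one]
  · rintro ⟨a, b⟩ hab hne
    rw [Finset.HasAntidiagonal.mem_antidiagonal] at hab
    simp only at hab
    have hb : b ≠ 0 := by
      rintro rfl
      apply hne
      ext <;> simp <;> omega
    simp only
    rw [coeff_expand, if_neg, mul_zero]
    intro hd
    have := Nat.le_of_dvd (Nat.pos_of_ne_zero hb) hd
    omega
  · intro h
    exact absurd (by rw [Finset.HasAntidiagonal.mem_antidiagonal]; ring) h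

/-- The defining product and the `m`-fold convolution power of the Thue-Morse sequence agree. -/
theorem t_eq (m n : ℕ) : t m n = coeff n (T ^ m) := by
  have h1 : T ^ m = (∏ k ∈ Finset.range (n + 1), ((1 : PowerSeries ℤ) - X ^ (2 ^ k)) ^ m) *
      expand (2 ^ (n + 1)) (by positivity) (T ^ m) := by
    conv_lhs => rw [T_prod (n + 1), mul_pow, ← Finset.prod_pow]
    rw [map_pow]
  rw [h1, coeff_mul_expand, t]
  · exact Nat.lt_of_lt_of_le (Nat.lt_succ_self n) (Nat.lt_two_pow_self).le
  · rw [coeff_zero_eq_constantCoeff_apply, map_pow, ← coeff_zero_eq_constantCoeff_apply, T,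
      coeff_mk]
    simp

theorem T_sq : T ^ 2 = (1 - X) * ((1 - X) * expand 2 (by norm_num) (T ^ 2)) := by
  conv_lhs => rw [T_rec]
  rw [map_pow]
  ring

theorem rec_odd (n : ℕ) : t 2 (2 * n + 1) = -2 * t 2 n := by
  rw [t_eq, t_eq, T_sq, coeff_succ_one_sub_X_mul]
  cases n with
  | zero =>
    rw [Nat.mul_zero, Nat.zero_add, show (1 : ℕ) = 0 + 1 by rfl, coeff_succ_one_sub_X_mul]
    have h0 : ∀ P : PowerSeries ℤ, coeff 0 ((1 - X) * P) = coeff 0 P := by
      intro P
      rw [sub_mul, one_mul, map_sub, coeff_zero_X_mul, sub_zero]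
    rw [h0, h0, h0, coeff_expand, coeff_expand, if_neg (by norm_num), if_pos (by norm_num)]
    simp only [Nat.zero_div]
    ring
  | succ k =>
    rw [coeff_succ_one_sub_X_mul, show 2 * (k + 1) = 2 * k + 1 + 1 by ring,
      coeff_succ_one_sub_X_mul, coeff_expand, coeff_expand, coeff_expand, if_neg (by omega),
      if_pos (by omega), if_neg (by omega), show (2 * k + 1 + 1) / 2 = k + 1 by omega, ← T_sq]
    ring

theorem rec_even (n : ℕ) (hn : 1 ≤ n) : t 2 (2 * n) = t 2 n + t 2 (n - 1) := by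
  obtain ⟨k, rfl⟩ : ∃ k, n = k + 1 := ⟨n - 1, by omega⟩
  rw [t_eq, t_eq, t_eq, T_sq, show 2 * (k + 1) = 2 * k + 1 + 1 by ring, coeff_succ_one_sub_X_mul,
    coeff_succ_one_sub_X_mul]
  rw [coeff_succ_one_sub_X_mul, coeff_expand, coeff_expand, coeff_expand, if_pos (by omega),
    if_neg (by omega), if_pos (by omega), show (2 * k + 1 + 1) / 2 = k + 1 by omega,
    show 2 * k / 2 = k by omega, ← T_sq, Nat.add_sub_cancel]
  ring

/-- `t_2(N)` and `t_2(N-1)` in terms of `t_2(n)` and `t_2(n-1)`. -/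
structure Pr (n N : ℕ) (a b c d : ℤ) : Prop where
  one_le : 1 ≤ N
  fst : t 2 N = a * t 2 n + b * t 2 (n - 1)
  snd : t 2 (N - 1) = c * t 2 n + d * t 2 (n - 1)

theorem Pr.even {n N N' : ℕ} {a b c d a' b' c' d' : ℤ} (h : Pr n N a b c d) (hN : N' = 2 * N)
    (ha : a' = a + c) (hb : b' = b + d) (hc : c' = -2 * c) (hd : d' = -2 * d) :
    Pr n N' a' b' c' d' := by
  subst hN ha hb hc hd
  have h1 := h.one_le
  refine ⟨by omega, ?_, ?_⟩
  · rw [rec_even N h1, h.fst, h.snd]; ring
  · rw [show 2 * N - 1 = 2 * (N - 1) + 1 by omega, rec_odd, h.snd]; ring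

theorem Pr.odd {n N N' : ℕ} {a b c d a' b' c' d' : ℤ} (h : Pr n N a b c d) (hN : N' = 2 * N + 1)
    (ha : a' = -2 * a) (hb : b' = -2 * b) (hc : c' = a + c) (hd : d' = b + d) :
    Pr n N' a' b' c' d' := by
  subst hN ha hb hc hd
  have h1 := h.one_le
  refine ⟨by omega, ?_, ?_⟩
  · rw [rec_odd, h.fst]; ring
  · rw [show 2 * N + 1 - 1 = 2 * N by omega, rec_even N h1, h.fst, h.snd]; ring

theorem Pr.refl {n : ℕ} (hn : 1 ≤ n) : Pr n n 1 0 0 1 :=
  ⟨hn, by ring, by ring⟩

theorem word480 (n : ℕ) (hn : 1 ≤ n) : ∃ c d : ℤ, Pr n (512 * n + 480) (-39) (11) c d := by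
  have h0 := Pr.refl hn
  have h1 : Pr n (2 * n + 1) (-2) (0) (1) (1) :=
    h0.odd (by ring) (by norm_num) (by norm_num) (by norm_num) (by norm_num)
  have h2 : Pr n (4 * n + 3) (4) (0) (-1) (1) :=
    h1.odd (by ring) (by norm_num) (by norm_num) (by norm_num) (by norm_num)
  have h3 : Pr n (8 * n + 7) (-8) (0) (3) (1) :=
    h2.odd (by ring) (by norm_num) (by norm_num) (by norm_num) (by norm_num)
  have h4 : Pr n (16 * n + 15) (16) (0) (-5) (1) :=
    h3.odd (by ring) (by norm_num) (by norm_num) (by norm_num) (by norm_num)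
  have h5 : Pr n (32 * n + 30) (11) (1) (10) (-2) :=
    h4.even (by ring) (by norm_num) (by norm_num) (by norm_num) (by norm_num)
  have h6 : Pr n (64 * n + 60) (21) (-1) (-20) (4) :=
    h5.even (by ring) (by norm_num) (by norm_num) (by norm_num) (by norm_num)
  have h7 : Pr n (128 * n + 120) (1) (3) (40) (-8) :=
    h6.even (by ring) (by norm_num) (by norm_num) (by norm_num) (by norm_num)
  have h8 : Pr n (256 * n + 240) (41) (-5) (-80) (16) :=
    h7.even (by ring) (by norm_num) (by norm_num) (by norm_num) (by norm_num)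
  have h9 : Pr n (512 * n + 480) (-39) (11) (160) (-32) :=
    h8.even (by ring) (by norm_num) (by norm_num) (by norm_num) (by norm_num)
  exact ⟨_, _, h9⟩

theorem word390 (n : ℕ) (hn : 1 ≤ n) : ∃ c d : ℤ, Pr n (512 * n + 390) (11) (1) c d := by
  have h0 := Pr.refl hn
  have h1 : Pr n (2 * n + 1) (-2) (0) (1) (1) :=
    h0.odd (by ring) (by norm_num) (by norm_num) (by norm_num) (by norm_num)
  have h2 : Pr n (4 * n + 3) (4) (0) (-1) (1) :=
    h1.odd (by ring) (by norm_num) (by norm_num) (by norm_num) (by norm_num)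
  have h3 : Pr n (8 * n + 6) (3) (1) (2) (-2) :=
    h2.even (by ring) (by norm_num) (by norm_num) (by norm_num) (by norm_num)
  have h4 : Pr n (16 * n + 12) (5) (-1) (-4) (4) :=
    h3.even (by ring) (by norm_num) (by norm_num) (by norm_num) (by norm_num)
  have h5 : Pr n (32 * n + 24) (1) (3) (8) (-8) :=
    h4.even (by ring) (by norm_num) (by norm_num) (by norm_num) (by norm_num)
  have h6 : Pr n (64 * n + 48) (9) (-5) (-16) (16) :=
    h5.even (by ring) (by norm_num) (by norm_num) (by norm_num) (by norm_num)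
  have h7 : Pr n (128 * n + 97) (-18) (10) (-7) (11) :=
    h6.odd (by ring) (by norm_num) (by norm_num) (by norm_num) (by norm_num)
  have h8 : Pr n (256 * n + 195) (36) (-20) (-25) (21) :=
    h7.odd (by ring) (by norm_num) (by norm_num) (by norm_num) (by norm_num)
  have h9 : Pr n (512 * n + 390) (11) (1) (50) (-42) :=
    h8.even (by ring) (by norm_num) (by norm_num) (by norm_num) (by norm_num)
  exact ⟨_, _, h9⟩

theorem word171 (n : ℕ) (hn : 1 ≤ n) : ∃ c d : ℤ, Pr n (512 * n + 171) (28) (-12) c d := by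
  have h0 := Pr.refl hn
  have h1 : Pr n (2 * n + 0) (1) (1) (0) (-2) :=
    h0.even (by ring) (by norm_num) (by norm_num) (by norm_num) (by norm_num)
  have h2 : Pr n (4 * n + 1) (-2) (-2) (1) (-1) :=
    h1.odd (by ring) (by norm_num) (by norm_num) (by norm_num) (by norm_num)
  have h3 : Pr n (8 * n + 2) (-1) (-3) (-2) (2) :=
    h2.even (by ring) (by norm_num) (by norm_num) (by norm_num) (by norm_num)
  have h4 : Pr n (16 * n + 5) (2) (6) (-3) (-1) :=
    h3.odd (by ring) (by norm_num) (by norm_num) (by norm_num) (by norm_num)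
  have h5 : Pr n (32 * n + 10) (-1) (5) (6) (2) :=
    h4.even (by ring) (by norm_num) (by norm_num) (by norm_num) (by norm_num)
  have h6 : Pr n (64 * n + 21) (2) (-10) (5) (7) :=
    h5.odd (by ring) (by norm_num) (by norm_num) (by norm_num) (by norm_num)
  have h7 : Pr n (128 * n + 42) (7) (-3) (-10) (-14) :=
    h6.even (by ring) (by norm_num) (by norm_num) (by norm_num) (by norm_num)
  have h8 : Pr n (256 * n + 85) (-14) (6) (-3) (-17) :=
    h7.odd (by ring) (by norm_num) (by norm_num) (by norm_num) (by norm_num)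
  have h9 : Pr n (512 * n + 171) (28) (-12) (-17) (-11) :=
    h8.odd (by ring) (by norm_num) (by norm_num) (by norm_num) (by norm_num)
  exact ⟨_, _, h9⟩

theorem word61 (n : ℕ) (hn : 1 ≤ n) : ∃ c d : ℤ, Pr n (256 * n + 61) (-22) (14) c d := by
  have h0 := Pr.refl hn
  have h1 : Pr n (2 * n + 0) (1) (1) (0) (-2) :=
    h0.even (by ring) (by norm_num) (by norm_num) (by norm_num) (by norm_num)
  have h2 : Pr n (4 * n + 0) (1) (-1) (0) (4) :=
    h1.even (by ring) (by norm_num) (by norm_num) (by norm_num) (by norm_num)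
  have h3 : Pr n (8 * n + 1) (-2) (2) (1) (3) :=
    h2.odd (by ring) (by norm_num) (by norm_num) (by norm_num) (by norm_num)
  have h4 : Pr n (16 * n + 3) (4) (-4) (-1) (5) :=
    h3.odd (by ring) (by norm_num) (by norm_num) (by norm_num) (by norm_num)
  have h5 : Pr n (32 * n + 7) (-8) (8) (3) (1) :=
    h4.odd (by ring) (by norm_num) (by norm_num) (by norm_num) (by norm_num)
  have h6 : Pr n (64 * n + 15) (16) (-16) (-5) (9) :=
    h5.odd (by ring) (by norm_num) (by norm_num) (by norm_num) (by norm_num)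
  have h7 : Pr n (128 * n + 30) (11) (-7) (10) (-18) :=
    h6.even (by ring) (by norm_num) (by norm_num) (by norm_num) (by norm_num)
  have h8 : Pr n (256 * n + 61) (-22) (14) (21) (-25) :=
    h7.odd (by ring) (by norm_num) (by norm_num) (by norm_num) (by norm_num)
  exact ⟨_, _, h8⟩

theorem word166 (n : ℕ) (hn : 1 ≤ n) : ∃ c d : ℤ, Pr n (256 * n + 166) (3) (-7) c d := by
  have h0 := Pr.refl hn
  have h1 : Pr n (2 * n + 1) (-2) (0) (1) (1) :=
    h0.odd (by ring) (by norm_num) (by norm_num) (by norm_num) (by norm_num)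
  have h2 : Pr n (4 * n + 2) (-1) (1) (-2) (-2) :=
    h1.even (by ring) (by norm_num) (by norm_num) (by norm_num) (by norm_num)
  have h3 : Pr n (8 * n + 5) (2) (-2) (-3) (-1) :=
    h2.odd (by ring) (by norm_num) (by norm_num) (by norm_num) (by norm_num)
  have h4 : Pr n (16 * n + 10) (-1) (-3) (6) (2) :=
    h3.even (by ring) (by norm_num) (by norm_num) (by norm_num) (by norm_num)
  have h5 : Pr n (32 * n + 20) (5) (-1) (-12) (-4) :=
    h4.even (by ring) (by norm_num) (by norm_num) (by norm_num) (by norm_num)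
  have h6 : Pr n (64 * n + 41) (-10) (2) (-7) (-5) :=
    h5.odd (by ring) (by norm_num) (by norm_num) (by norm_num) (by norm_num)
  have h7 : Pr n (128 * n + 83) (20) (-4) (-17) (-3) :=
    h6.odd (by ring) (by norm_num) (by norm_num) (by norm_num) (by norm_num)
  have h8 : Pr n (256 * n + 166) (3) (-7) (34) (6) :=
    h7.even (by ring) (by norm_num) (by norm_num) (by norm_num) (by norm_num)
  exact ⟨_, _, h8⟩

theorem word238 (n : ℕ) (hn : 1 ≤ n) : ∃ c d : ℤ, Pr n (256 * n + 238) (19) (-7) c d := by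
  have h0 := Pr.refl hn
  have h1 : Pr n (2 * n + 1) (-2) (0) (1) (1) :=
    h0.odd (by ring) (by norm_num) (by norm_num) (by norm_num) (by norm_num)
  have h2 : Pr n (4 * n + 3) (4) (0) (-1) (1) :=
    h1.odd (by ring) (by norm_num) (by norm_num) (by norm_num) (by norm_num)
  have h3 : Pr n (8 * n + 7) (-8) (0) (3) (1) :=
    h2.odd (by ring) (by norm_num) (by norm_num) (by norm_num) (by norm_num)
  have h4 : Pr n (16 * n + 14) (-5) (1) (-6) (-2) :=
    h3.even (by ring) (by norm_num) (by norm_num) (by norm_num) (by norm_num)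
  have h5 : Pr n (32 * n + 29) (10) (-2) (-11) (-1) :=
    h4.odd (by ring) (by norm_num) (by norm_num) (by norm_num) (by norm_num)
  have h6 : Pr n (64 * n + 59) (-20) (4) (-1) (-3) :=
    h5.odd (by ring) (by norm_num) (by norm_num) (by norm_num) (by norm_num)
  have h7 : Pr n (128 * n + 119) (40) (-8) (-21) (1) :=
    h6.odd (by ring) (by norm_num) (by norm_num) (by norm_num) (by norm_num)
  have h8 : Pr n (256 * n + 238) (19) (-7) (42) (-2) :=
    h7.even (by ring) (by norm_num) (by norm_num) (by norm_num) (by norm_num)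
  exact ⟨_, _, h8⟩

/-- three values at multiples of three that sum to zero -/
theorem sum_zero (n : ℕ) (hn : 1 ≤ n) :
    t 2 (512 * n + 480) + t 2 (512 * n + 390) + t 2 (512 * n + 171) = 0 := by
  obtain ⟨_, _, h1⟩ := word480 n hn
  obtain ⟨_, _, h2⟩ := word390 n hn
  obtain ⟨_, _, h3⟩ := word171 n hn
  rw [h1.fst, h2.fst, h3.fst]
  ring

/-- three values at numbers congruent to one modulo three that sum to zero -/
theorem sum_one (n : ℕ) (hn : 1 ≤ n) :
    t 2 (256 * n + 61) + t 2 (256 * n + 166) + t 2 (256 * n + 238) = 0 := by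
  obtain ⟨_, _, h1⟩ := word61 n hn
  obtain ⟨_, _, h2⟩ := word166 n hn
  obtain ⟨_, _, h3⟩ := word238 n hn
  rw [h1.fst, h2.fst, h3.fst]
  ring

theorem exists_zero (k : ℕ) (hk : 1 ≤ k) : ∃ r < 512, 512 * k + r ∈ A 2 0 := by
  have h := sum_zero (3 * k) (by omega)
  have e1 : 512 * (3 * k) + 480 = 3 * (512 * k + 160) + 0 := by ring
  have e2 : 512 * (3 * k) + 390 = 3 * (512 * k + 130) + 0 := by ring
  have e3 : 512 * (3 * k) + 171 = 3 * (512 * k + 57) + 0 := by ring
  rw [e1, e2, e3] at h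
  have key : ∀ x : ℕ, t 2 (3 * x + 0) ≤ 0 → x ∈ A 2 0 := by
    intro x hx
    simp only [A, Set.mem_ofPred_eq, pow_zero]
    intro h1
    rw [Int.sign_eq_one_iff_pos] at h1
    omega
  by_cases h1 : t 2 (3 * (512 * k + 160) + 0) ≤ 0
  · exact ⟨160, by norm_num, key _ h1⟩
  by_cases h2 : t 2 (3 * (512 * k + 130) + 0) ≤ 0
  · exact ⟨130, by norm_num, key _ h2⟩
  exact ⟨57, by norm_num, key _ (by omega)⟩

theorem exists_one (k : ℕ) (hk : 1 ≤ k) : ∃ r < 512, 512 * k + r ∈ A 2 1 := by
  have h := sum_one (6 * k) (by omega)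
  have e1 : 256 * (6 * k) + 61 = 3 * (512 * k + 20) + 1 := by ring
  have e2 : 256 * (6 * k) + 166 = 3 * (512 * k + 55) + 1 := by ring
  have e3 : 256 * (6 * k) + 238 = 3 * (512 * k + 79) + 1 := by ring
  rw [e1, e2, e3] at h
  have key : ∀ x : ℕ, 0 ≤ t 2 (3 * x + 1) → x ∈ A 2 1 := by
    intro x hx
    simp only [A, Set.mem_ofPred_eq, pow_one]
    intro h1
    rw [Int.sign_eq_neg_one_iff_neg] at h1
    omega
  by_cases h1 : 0 ≤ t 2 (3 * (512 * k + 20) + 1)
  · exact ⟨20, by norm_num, key _ h1⟩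
  by_cases h2 : 0 ≤ t 2 (3 * (512 * k + 55) + 1)
  · exact ⟨55, by norm_num, key _ h2⟩
  exact ⟨79, by norm_num, key _ (by omega)⟩

open Classical in
theorem cnt_ge (S : Set ℕ) (h : ∀ k, 1 ≤ k → ∃ r < 512, 512 * k + r ∈ S) (N : ℕ) :
    N ≤ 512 * (cnt S N + 2) := by
  have h1 : ∀ K : ℕ, K ≤ cnt S (512 * (K + 1)) := by
    intro K
    choose f hf using h
    have h2 : ((Finset.Icc 1 K).attach.image (fun x => 512 * x.1 + f x.1 (Finset.mem_Icc.1 x.2).1)) ⊆
        (Finset.range (512 * (K + 1))).filter (· ∈ S) := by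
      intro y hy
      rw [Finset.mem_image] at hy
      obtain ⟨x, _, rfl⟩ := hy
      have h3 := Finset.mem_Icc.1 x.2
      have h4 := hf x.1 h3.1
      rw [Finset.mem_filter, Finset.mem_range]
      refine ⟨by omega, h4.2⟩
    have h5 := Finset.card_le_card h2
    rw [Finset.card_image_of_injective] at h5
    · simpa [cnt] using h5
    · intro x y hxy
      have hx := hf x.1 (Finset.mem_Icc.1 x.2).1
      have hy := hf y.1 (Finset.mem_Icc.1 y.2).1
      simp only at hxy
      apply Subtype.ext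
      omega
  have h2 : cnt S (512 * (N / 512)) ≤ cnt S N := by
    apply Finset.card_le_card
    apply Finset.filter_subset_filter
    intro x hx
    rw [Finset.mem_range] at hx ⊢
    omega
  rcases Nat.eq_zero_or_pos (N / 512) with h3 | h3
  · omega
  · have h4 := h1 (N / 512 - 1)
    rw [show N / 512 - 1 + 1 = N / 512 by omega] at h4
    omega

theorem not_tendsto (S : Set ℕ) (h : ∀ N, N ≤ 512 * (cnt S N + 2)) :
    ¬ Filter.Tendsto (fun N : ℕ => (cnt S N : ℝ) / N) Filter.atTop (nhds 0) := by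
  intro ht
  have h1 : ∀ᶠ N : ℕ in Filter.atTop, (cnt S N : ℝ) / N < 1 / 1024 :=
    ht.eventually_lt_const (by norm_num)
  obtain ⟨N, hN, hN2⟩ := (h1.and (Filter.eventually_ge_atTop 4096)).exists
  have h2 : (N : ℝ) ≤ 512 * (cnt S N + 2) := by exact_mod_cast h N
  have h3 : (4096 : ℝ) ≤ N := by exact_mod_cast hN2
  rw [div_lt_iff₀ (by linarith)] at hN
  linarith

/-- For `m = 2` both exceptional sets have positive lower density; in particular the density does
not tend to zero, so Q1 fails for `m = 2` and both `j = 0` and `j = 1`. -/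
theorem result :
    (∀ m n : ℕ, t m n = coeff n ((PowerSeries.mk fun i => (-1 : ℤ) ^ (Nat.digits 2 i).sum) ^ m)) ∧
    ∀ j : ℕ, j = 0 ∨ j = 1 →
      (∀ N : ℕ, (N : ℝ) / 512 - 2 ≤ cnt (A 2 j) N) ∧
      ¬ Filter.Tendsto (fun N : ℕ => (cnt (A 2 j) N : ℝ) / N) Filter.atTop (nhds 0) := by
  refine ⟨fun m n => t_eq m n, ?_⟩
  have main : ∀ j : ℕ, j = 0 ∨ j = 1 → ∀ N, N ≤ 512 * (cnt (A 2 j) N + 2) := by
    rintro j (rfl | rfl)
    · exact cnt_ge _ exists_zero
    · exact cnt_ge _ exists_one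
  intro j hj
  refine ⟨fun N => ?_, not_tendsto _ (main j hj)⟩
  have h2 : (N : ℝ) ≤ 512 * (cnt (A 2 j) N + 2) := by exact_mod_cast main j hj N
  linarith

end Pool.Agent.Results.MP_58bd73_nt.PositiveDensity
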