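import Mathlib

/-!
Sign exceptions of powers of the Thue-Morse generating function.

We show that for `m = 2` and both `j = 0, 1` the set of exceptional `n` has positive lower density,
so that it does not have density zero. The proof rests on two linear relations with positive
coefficients between values of `t 2` at arguments of the same residue modulo three.
-/

namespace Pool.Agent.Results.MP_58bd73_nt.SignExceptions

open PowerSeries Finset Filter Topology

/-- The Prouhet-Thue-Morse power series, with coefficients `(-1) ^ s₂(n)`. -/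
noncomputable def tm : PowerSeries ℤ :=
  PowerSeries.mk fun n : ℕ => (-1 : ℤ) ^ (Nat.digits 2 n).sum

/-- `t m n` is the coefficient of `x ^ n` in the `m`-th power of the Thue-Morse series. -/
noncomputable def t (m n : ℕ) : ℤ := PowerSeries.coeff n (tm ^ m)

/-- The exceptional set: those `n` for which the sign of `t m (3 * n + j)` is not `(-1) ^ j`. -/
def A (m j : ℕ) : Set ℕ := {n | Int.sign (t m (3 * n + j)) ≠ (-1) ^ j}

theorem coeff_tm (n : ℕ) : PowerSeries.coeff n tm = (-1 : ℤ) ^ (Nat.digits 2 n).sum := by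
  simp [tm]

theorem tm_eq : tm = (1 - X) * PowerSeries.expand 2 two_ne_zero tm := by
  ext n
  rw [sub_mul, one_mul, map_sub]
  rcases Nat.even_or_odd' n with ⟨k, rfl | rfl⟩
  · rw [coeff_expand_mul, coeff_tm, coeff_tm]
    rcases Nat.eq_zero_or_pos k with rfl | hk
    · simp
    · have h1 : 2 * k = (2 * k - 1) + 1 := by omega
      have h2 : PowerSeries.coeff (2 * k) (X * PowerSeries.expand 2 two_ne_zero tm) = 0 := by
        rw [h1, coeff_succ_X_mul]
        exact coeff_expand_of_not_dvd _ _ _ (by omega)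
      rw [h2, Nat.digits_def' (by norm_num) (by omega)]
      have h3 : 2 * k % 2 = 0 := by omega
      have h4 : 2 * k / 2 = k := by omega
      rw [h3, h4]
      simp
  · rw [coeff_succ_X_mul, coeff_expand_mul, coeff_tm, coeff_tm,
      coeff_expand_of_not_dvd _ _ _ (by omega), Nat.digits_def' (by norm_num) (by omega)]
    have h3 : (2 * k + 1) % 2 = 1 := by omega
    have h4 : (2 * k + 1) / 2 = k := by omega
    rw [h3, h4]
    simp [pow_add]

/-- Iterated functional equation. -/
theorem tm_prod (K : ℕ) :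
    tm = (∏ k ∈ range K, (1 - X ^ (2 ^ k) : PowerSeries ℤ)) *
      PowerSeries.expand (2 ^ K) (by positivity) tm := by
  induction K with
  | zero => simp
  | succ K ih =>
    have h : PowerSeries.expand (2 ^ K) (by positivity) tm =
        (1 - X ^ (2 ^ K)) * PowerSeries.expand (2 ^ (K + 1)) (by positivity) tm := by
      conv_lhs => rw [tm_eq]
      rw [map_mul, map_sub, map_one, expand_X]
      congr 1
      have := PowerSeries.expand_mul (2 ^ K) (by positivity) 2 two_ne_zero tm
      rw [← this]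
      rfl
    rw [prod_range_succ, mul_assoc, ← h]
    exact ih

/-- The coefficient of `x ^ n` in the infinite product only involves the factors with
`2 ^ k ≤ n`. -/
theorem t_eq_coeff_prod (m K n : ℕ) (hn : n < 2 ^ K) :
    PowerSeries.coeff n ((∏ k ∈ range K, (1 - X ^ (2 ^ k) : PowerSeries ℤ)) ^ m) = t m n := by
  unfold t
  conv_rhs => rw [tm_prod K, mul_pow, ← map_pow]
  rw [coeff_mul]
  rw [Finset.sum_eq_single (n, 0)]
  · have : PowerSeries.constantCoeff tm = 1 := by
      rw [← coeff_zero_eq_constantCoeff_apply, coeff_tm]; simp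
    have h2 : PowerSeries.constantCoeff (tm ^ m) = 1 := by rw [map_pow, this, one_pow]
    rw [coeff_zero_eq_constantCoeff_apply, constantCoeff_expand, h2, mul_one]
  · rintro ⟨i, j⟩ hij hne
    have hij' : i + j = n := by simpa using hij
    have hj : j ≠ 0 := by
      rintro rfl
      apply hne
      simp at hij'
      simp [hij']
    have : ¬ (2 ^ K ∣ j) := by
      intro hd
      have := Nat.le_of_dvd (Nat.pos_of_ne_zero hj) hd
      omega
    simp only
    rw [coeff_expand_of_not_dvd _ _ _ this, mul_zero]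
  · intro h
    exfalso
    apply h
    simp

theorem tm_sq : tm ^ 2 = (1 - 2 * X + X ^ 2) * PowerSeries.expand 2 two_ne_zero (tm ^ 2) := by
  conv_lhs => rw [tm_eq]
  rw [map_pow]
  ring

theorem coeff_aux (G : PowerSeries ℤ) (n : ℕ) :
    PowerSeries.coeff (n + 2) ((1 - 2 * X + X ^ 2) * G) =
      PowerSeries.coeff (n + 2) G - 2 * PowerSeries.coeff (n + 1) G + PowerSeries.coeff n G := by
  have : (1 - 2 * X + X ^ 2) * G = G - (C (2 : ℤ)) * (X * G) + X * (X * G) := by
    rw [map_ofNat]; ring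
  rw [this, map_add, map_sub, coeff_C_mul, coeff_succ_X_mul, coeff_succ_X_mul, coeff_succ_X_mul]

theorem rec_even (n : ℕ) : t 2 (2 * n + 2) = t 2 (n + 1) + t 2 n := by
  unfold t
  conv_lhs => rw [tm_sq]
  rw [coeff_aux]
  have h1 : 2 * n + 2 = 2 * (n + 1) := by ring
  rw [h1, coeff_expand_mul, coeff_expand_mul, coeff_expand_of_not_dvd _ _ _ (by omega)]
  ring

theorem rec_odd (n : ℕ) : t 2 (2 * n + 1) = -2 * t 2 n := by
  unfold t
  conv_lhs => rw [tm_sq]
  rcases Nat.eq_zero_or_pos n with rfl | hn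
  · have : (1 - 2 * X + X ^ 2) * PowerSeries.expand 2 two_ne_zero (tm ^ 2) =
        PowerSeries.expand 2 two_ne_zero (tm ^ 2) -
        (C (2 : ℤ)) * (X * PowerSeries.expand 2 two_ne_zero (tm ^ 2)) +
        X * (X * PowerSeries.expand 2 two_ne_zero (tm ^ 2)) := by
      rw [map_ofNat]; ring
    rw [this, map_add, map_sub, coeff_C_mul, coeff_succ_X_mul, coeff_succ_X_mul,
      coeff_expand_of_not_dvd _ _ _ (by omega)]
    have h0 : PowerSeries.coeff (2 * 0) (PowerSeries.expand 2 two_ne_zero (tm ^ 2)) =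
        PowerSeries.coeff 0 (tm ^ 2) := coeff_expand_mul _ _ _ _
    have h1 : PowerSeries.coeff (2 * 0) (X * PowerSeries.expand 2 two_ne_zero (tm ^ 2)) = 0 := by
      simp
    rw [h0, h1]
    ring
  · obtain ⟨k, rfl⟩ : ∃ k, n = k + 1 := ⟨n - 1, by omega⟩
    have h1 : 2 * (k + 1) + 1 = (2 * k + 1) + 2 := by ring
    have h2 : 2 * k + 1 + 1 = 2 * (k + 1) := by ring
    rw [h1, coeff_aux, h2, coeff_expand_mul, coeff_expand_of_not_dvd _ _ _ (by omega),
      coeff_expand_of_not_dvd _ _ _ (by omega)]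
    ring

theorem re (k n : ℕ) (h : k = 2 * n + 2) : t 2 k = t 2 (n + 1) + t 2 n := by
  rw [h, rec_even]

theorem ro (k n : ℕ) (h : k = 2 * n + 1) : t 2 k = -2 * t 2 n := by
  rw [h, rec_odd]

/-- First relation, between three values at multiples of three. -/
theorem rel0 (n : ℕ) :
    6 * t 2 (64 * n + 80) + t 2 (32 * n + 37) + 8 * t 2 (32 * n + 52) = 0 := by
  -- the base point is `n + 1`
  have a1 := re (64 * n + 80) (32 * n + 39) (by ring)
  have a2 := re (32 * n + 40) (16 * n + 19) (by ring)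
  have a3 := ro (32 * n + 39) (16 * n + 19) (by ring)
  have a4 := re (16 * n + 20) (8 * n + 9) (by ring)
  have a5 := ro (16 * n + 19) (8 * n + 9) (by ring)
  have a6 := re (8 * n + 10) (4 * n + 4) (by ring)
  have a7 := ro (8 * n + 9) (4 * n + 4) (by ring)
  have a8 := ro (4 * n + 5) (2 * n + 2) (by ring)
  have a9 := re (4 * n + 4) (2 * n + 1) (by ring)
  have a10 := re (2 * n + 2) n (by ring)
  have a11 := ro (2 * n + 1) n (by ring)
  have b1 := ro (32 * n + 37) (16 * n + 18) (by ring)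
  have b2 := re (16 * n + 18) (8 * n + 8) (by ring)
  have b3 := re (8 * n + 8) (4 * n + 3) (by ring)
  have b4 := ro (4 * n + 3) (2 * n + 1) (by ring)
  have c1 := re (32 * n + 52) (16 * n + 25) (by ring)
  have c2 := re (16 * n + 26) (8 * n + 12) (by ring)
  have c3 := ro (16 * n + 25) (8 * n + 12) (by ring)
  have c4 := ro (8 * n + 13) (4 * n + 6) (by ring)
  have c5 := re (8 * n + 12) (4 * n + 5) (by ring)
  have c6 := re (4 * n + 6) (2 * n + 2) (by ring)
  have c7 := ro (2 * n + 3) (n + 1) (by ring)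
  simp only [show 32 * n + 39 + 1 = 32 * n + 40 by ring, show 16 * n + 19 + 1 = 16 * n + 20 by ring,
    show 8 * n + 9 + 1 = 8 * n + 10 by ring, show 4 * n + 4 + 1 = 4 * n + 5 by ring,
    show 2 * n + 1 + 1 = 2 * n + 2 by ring, show 8 * n + 8 + 1 = 8 * n + 9 by ring,
    show 4 * n + 3 + 1 = 4 * n + 4 by ring, show 16 * n + 25 + 1 = 16 * n + 26 by ring,
    show 8 * n + 12 + 1 = 8 * n + 13 by ring, show 4 * n + 5 + 1 = 4 * n + 6 by ring,
    show 2 * n + 2 + 1 = 2 * n + 3 by ring] at *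
  linarith

/-- Second relation, between three values at arguments congruent to one modulo three. -/
theorem rel1 (n : ℕ) :
    2 * t 2 (64 * n + 110) + 2 * t 2 (32 * n + 33) + t 2 (16 * n + 17) = 0 := by
  have a1 := re (64 * n + 110) (32 * n + 54) (by ring)
  have a2 := ro (32 * n + 55) (16 * n + 27) (by ring)
  have a3 := re (32 * n + 54) (16 * n + 26) (by ring)
  have a4 := ro (16 * n + 27) (8 * n + 13) (by ring)
  have a5 := re (16 * n + 26) (8 * n + 12) (by ring)
  have a6 := ro (8 * n + 13) (4 * n + 6) (by ring)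
  have a7 := re (8 * n + 12) (4 * n + 5) (by ring)
  have a8 := re (4 * n + 6) (2 * n + 2) (by ring)
  have a9 := ro (4 * n + 5) (2 * n + 2) (by ring)
  have a10 := ro (2 * n + 3) (n + 1) (by ring)
  have a11 := re (2 * n + 2) n (by ring)
  have b1 := ro (32 * n + 33) (16 * n + 16) (by ring)
  have b2 := re (16 * n + 16) (8 * n + 7) (by ring)
  have b3 := re (8 * n + 8) (4 * n + 3) (by ring)
  have b4 := ro (8 * n + 7) (4 * n + 3) (by ring)
  have b5 := re (4 * n + 4) (2 * n + 1) (by ring)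
  have b6 := ro (4 * n + 3) (2 * n + 1) (by ring)
  have b7 := ro (2 * n + 1) n (by ring)
  have c1 := ro (16 * n + 17) (8 * n + 8) (by ring)
  simp only [show 32 * n + 54 + 1 = 32 * n + 55 by ring, show 16 * n + 26 + 1 = 16 * n + 27 by ring,
    show 8 * n + 12 + 1 = 8 * n + 13 by ring, show 4 * n + 5 + 1 = 4 * n + 6 by ring,
    show 2 * n + 2 + 1 = 2 * n + 3 by ring, show 8 * n + 7 + 1 = 8 * n + 8 by ring,
    show 4 * n + 3 + 1 = 4 * n + 4 by ring, show 2 * n + 1 + 1 = 2 * n + 2 by ring] at *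
  linarith

theorem exc0 (i : ℕ) : 64 * i + 48 ∈ A 2 0 ∨ 32 * i + 23 ∈ A 2 0 ∨ 32 * i + 28 ∈ A 2 0 := by
  have h := rel0 (3 * i + 1)
  by_contra hc
  simp only [A, Set.mem_ofPred_eq, not_or, not_not, pow_zero, Int.sign_eq_one_iff_pos] at hc
  obtain ⟨h1, h2, h3⟩ := hc
  rw [show 3 * (64 * i + 48) + 0 = 64 * (3 * i + 1) + 80 by ring] at h1
  rw [show 3 * (32 * i + 23) + 0 = 32 * (3 * i + 1) + 37 by ring] at h2
  rw [show 3 * (32 * i + 28) + 0 = 32 * (3 * i + 1) + 52 by ring] at h3
  linarith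

theorem exc1 (i : ℕ) : 64 * i + 79 ∈ A 2 1 ∨ 32 * i + 32 ∈ A 2 1 ∨ 16 * i + 16 ∈ A 2 1 := by
  have h := rel1 (3 * i + 2)
  by_contra hc
  simp only [A, Set.mem_ofPred_eq, not_or, not_not, pow_one, Int.sign_eq_neg_one_iff_neg] at hc
  obtain ⟨h1, h2, h3⟩ := hc
  rw [show 3 * (64 * i + 79) + 1 = 64 * (3 * i + 2) + 110 by ring] at h1
  rw [show 3 * (32 * i + 32) + 1 = 32 * (3 * i + 2) + 33 by ring] at h2
  rw [show 3 * (16 * i + 16) + 1 = 16 * (3 * i + 2) + 17 by ring] at h3
  linarith

/-- Counting: a set which meets three progressions for every index has many elements. -/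
theorem count_aux (S : Set ℕ) (f g h : ℕ → ℕ) (N M : ℕ)
    (hf : ∀ i < M, f i < N) (hg : ∀ i < M, g i < N) (hh : ∀ i < M, h i < N)
    (f' g' h' : ℕ → ℕ) (hf' : ∀ i, f' (f i) = i) (hg' : ∀ i, g' (g i) = i)
    (hh' : ∀ i, h' (h i) = i) (hS : ∀ i, f i ∈ S ∨ g i ∈ S ∨ h i ∈ S) :
    M ≤ 3 * (S ∩ Set.Iio N).ncard := by
  classical
  set T : Set ℕ := S ∩ Set.Iio N with hT
  have hfin : T.Finite := (Set.finite_Iio N).subset Set.inter_subset_right
  have hsub : (Set.Iio M : Set ℕ) ⊆ (f' '' T) ∪ (g' '' T) ∪ (h' '' T) := by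
    intro i hi
    have hi : i < M := hi
    rcases hS i with h1 | h1 | h1
    · exact Or.inl (Or.inl ⟨f i, ⟨h1, hf i hi⟩, hf' i⟩)
    · exact Or.inl (Or.inr ⟨g i, ⟨h1, hg i hi⟩, hg' i⟩)
    · exact Or.inr ⟨h i, ⟨h1, hh i hi⟩, hh' i⟩
  have h1 := Set.ncard_le_ncard hsub
    (((hfin.image _).union (hfin.image _)).union (hfin.image _))
  have h2 : (Set.Iio M : Set ℕ).ncard = M := by
    rw [← Finset.coe_Iio, Set.ncard_coe_finset]; simp
  rw [h2] at h1
  have h3 := Set.ncard_union_le ((f' '' T) ∪ (g' '' T)) (h' '' T)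
  have h4 := Set.ncard_union_le (f' '' T) (g' '' T)
  have h5 := Set.ncard_image_le (f := f') hfin
  have h6 := Set.ncard_image_le (f := g') hfin
  have h7 := Set.ncard_image_le (f := h') hfin
  omega

theorem count0 (N : ℕ) : N / 64 ≤ 3 * (A 2 0 ∩ Set.Iio N).ncard := by
  apply count_aux (A 2 0) (fun i => 64 * i + 48) (fun i => 32 * i + 23) (fun i => 32 * i + 28) N
    (N / 64) (by intro i hi; omega) (by intro i hi; omega)
    (by intro i hi; omega)
    (fun x => (x - 48) / 64) (fun x => (x - 23) / 32) (fun x => (x - 28) / 32)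
    (by intro i; omega) (by intro i; omega) (by intro i; omega)
    exc0

theorem count1 (N : ℕ) : N / 64 - 1 ≤ 3 * (A 2 1 ∩ Set.Iio N).ncard := by
  apply count_aux (A 2 1) (fun i => 64 * i + 79) (fun i => 32 * i + 32) (fun i => 16 * i + 16) N
    (N / 64 - 1) (by intro i hi; omega) (by intro i hi; omega)
    (by intro i hi; omega)
    (fun x => (x - 79) / 64) (fun x => (x - 32) / 32) (fun x => (x - 16) / 16)
    (by intro i; omega) (by intro i; omega) (by intro i; omega)
    exc1

/-- Positive lower density of both exceptional sets for `m = 2`. -/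
theorem lower (j : ℕ) (hj : j = 0 ∨ j = 1) (N : ℕ) (hN : 256 ≤ N) :
    (N : ℝ) / 400 ≤ ((A 2 j ∩ Set.Iio N).ncard : ℝ) := by
  have h : N ≤ 400 * (A 2 j ∩ Set.Iio N).ncard := by
    rcases hj with rfl | rfl
    · have := count0 N; omega
    · have := count1 N; omega
  have h' : (N : ℝ) ≤ 400 * ((A 2 j ∩ Set.Iio N).ncard : ℝ) := by exact_mod_cast h
  linarith

theorem not_zero_density (j : ℕ) (hj : j = 0 ∨ j = 1) :
    ¬ Tendsto (fun N : ℕ => ((A 2 j ∩ Set.Iio N).ncard : ℝ) / N) atTop (𝓝 0) := by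
  intro h
  have h1 := h.eventually_lt_const (show (0 : ℝ) < 1 / 400 by norm_num)
  obtain ⟨N, hN, hN'⟩ := (h1.and (eventually_ge_atTop 256)).exists
  have h2 := lower j hj N hN'
  have hpos : (0 : ℝ) < N := by exact_mod_cast (by omega : 0 < N)
  rw [div_lt_iff₀ hpos] at hN
  linarith

/-- `t` is given by the infinite product (every coefficient is that of a finite partial product);
for `m = 2` and `j = 0, 1` the exceptional set `A 2 j` contains at least `N / 400` of the integers
below `N`, for every `N ≥ 256`; so the assertion of the problem (for every `m ≥ 2` and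
`j = 0, 1` the exceptional set is infinite and has density zero) is false. -/
theorem result :
    (∀ m K n : ℕ, n < 2 ^ K →
      PowerSeries.coeff n ((∏ k ∈ range K, (1 - X ^ (2 ^ k) : PowerSeries ℤ)) ^ m) = t m n) ∧
    (∀ j : ℕ, j = 0 ∨ j = 1 → ∀ N : ℕ, 256 ≤ N →
      (N : ℝ) / 400 ≤ ((A 2 j ∩ Set.Iio N).ncard : ℝ)) ∧
    (∀ j : ℕ, j = 0 ∨ j = 1 →
      ¬ Tendsto (fun N : ℕ => ((A 2 j ∩ Set.Iio N).ncard : ℝ) / N) atTop (𝓝 0)) ∧
    ¬ (∀ m : ℕ, 2 ≤ m → ∀ j : ℕ, j = 0 ∨ j = 1 → (A m j).Infinite ∧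
      Tendsto (fun N : ℕ => ((A m j ∩ Set.Iio N).ncard : ℝ) / N) atTop (𝓝 0)) :=
  ⟨t_eq_coeff_prod, lower, not_zero_density,
    fun h => not_zero_density 0 (Or.inl rfl) (h 2 le_rfl 0 (Or.inl rfl)).2⟩

end Pool.Agent.Results.MP_58bd73_nt.SignExceptions
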